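import Pool.Agent.Lib.MP_b5021c_nt.IfaceO4V
import Pool.Agent.Lib.MP_b5021c_nt.KO.H52.T00
import Pool.Agent.Lib.MP_b5021c_nt.KO.H12.Kodn
import Pool.Agent.Lib.MP_b5021c_nt.B.H36.Evr

/-!
# MP_b5021c_nt, all `θ`, (O1-iv): the face of `S0`, `S1`, `b`
-/

namespace Pool.Agent.B5.O4

open scoped LaurentPolynomial
open Polynomial
open Pool.Agent.B5.KE
open Pool.Agent.B5.H52.T00 (evR_pl)

section

variable {P L : Type} [Fintype P] [DecidableEq P] [AddCommGroup L] [Module.Free ℤ L]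
  [Module.Finite ℤ L] {phi : L →+ (P → ℤ)} {D : AO ℤ L}

theorem sum_fs3 {A : Type} [AddCommMonoid A] (f : Finset (Fin 3) → A) :
    ∑ s, f s = f ∅ + (f {0} + (f {1} + (f {0, 1} + (f {2} + (f {0, 2} + (f {1, 2} +
      f {0, 1, 2})))))) := by
  have h1 : (Finset.univ : Finset (Finset (Fin 3))) =
      {∅, {0}, {1}, {0, 1}, {2}, {0, 2}, {1, 2}, {0, 1, 2}} := by decide
  rw [h1, Finset.sum_insert (by decide), Finset.sum_insert (by decide),
    Finset.sum_insert (by decide), Finset.sum_insert (by decide), Finset.sum_insert (by decide),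
    Finset.sum_insert (by decide), Finset.sum_insert (by decide), Finset.sum_singleton]

/-- The face of three disjoint exponents. -/
theorem face8 (hFcm : FcmS) (hD : DD phi D) (h2 : 2 ≤ Module.finrank ℤ L) {S0 S1 b : L}
    (hb0 : Bin phi S0) (hb1 : Bin phi S1) (hb2 : Bin phi b) (n0 : S0 ≠ 0) (n1 : S1 ≠ 0)
    (n2 : b ≠ 0) (d01 : ∀ q, phi S0 q = 0 ∨ phi S1 q = 0) (hout : Out phi S0 S1 b)
    (z : Circle) (x y t : ℂ) (u0 u1 u2 : (RO ℤ)ˣ) (hx : ‖x‖ < 1) (hy : ‖y‖ < 1) (ht : ‖t‖ < 1) :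
    evR z (D.coeff 0) + evR z ((u0 : RO ℤ) * D.coeff S0) * x +
      evR z ((u1 : RO ℤ) * D.coeff S1) * y +
      evR z ((u0 : RO ℤ) * (u1 : RO ℤ) * D.coeff (S0 + S1)) * (x * y) +
      (evR z ((u2 : RO ℤ) * D.coeff b) * t +
        evR z ((u2 : RO ℤ) * ((u0 : RO ℤ) * D.coeff (b + S0))) * (x * t) +
        evR z ((u2 : RO ℤ) * ((u1 : RO ℤ) * D.coeff (b + S1))) * (y * t) +
        evR z ((u2 : RO ℤ) * ((u0 : RO ℤ) * (u1 : RO ℤ) * D.coeff (b + S0 + S1))) *
          (x * y * t)) ≠ 0 := by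
  have d02 : ∀ q, phi S0 q = 0 ∨ phi b q = 0 := fun q => (hout q).symm.imp And.left id
  have d12 : ∀ q, phi S1 q = 0 ∨ phi b q = 0 := fun q => (hout q).symm.imp And.right id
  have hn : ∀ u : (RO ℤ)ˣ, ‖evR z (u : RO ℤ)‖ = 1 := fun u => H36.norm_evR_unit z _ u.isUnit
  have h := hFcm ℤ P L phi D 3 ![S0, S1, b] hD h2
    (by intro i; fin_cases i; exacts [hb0, hb1, hb2])
    (by intro i; fin_cases i; exacts [n0, n1, n2])
    (by
      intro i j hij q
      fin_cases i <;> fin_cases j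
      · exact absurd rfl hij
      · exact d01 q
      · exact d02 q
      · exact (d01 q).symm
      · exact absurd rfl hij
      · exact d12 q
      · exact (d02 q).symm
      · exact (d12 q).symm
      · exact absurd rfl hij)
    z ![evR z (u0 : RO ℤ) * x, evR z (u1 : RO ℤ) * y, evR z (u2 : RO ℤ) * t]
    (by
      intro i
      fin_cases i
      · change ‖evR z (u0 : RO ℤ) * x‖ < 1
        rw [norm_mul, hn, one_mul]
        exact hx
      · change ‖evR z (u1 : RO ℤ) * y‖ < 1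
        rw [norm_mul, hn, one_mul]
        exact hy
      · change ‖evR z (u2 : RO ℤ) * t‖ < 1
        rw [norm_mul, hn, one_mul]
        exact ht)
  rw [sum_fs3] at h
  have h1 : (0 : Fin 3) ∉ ({1} : Finset (Fin 3)) := by decide
  have h2' : (0 : Fin 3) ∉ ({2} : Finset (Fin 3)) := by decide
  have h3 : (1 : Fin 3) ∉ ({2} : Finset (Fin 3)) := by decide
  have h4 : (0 : Fin 3) ∉ ({1, 2} : Finset (Fin 3)) := by decide
  rw [Finset.prod_insert h4, Finset.sum_insert h4, Finset.prod_insert h3, Finset.sum_insert h3,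
    Finset.prod_insert h2', Finset.sum_insert h2', Finset.prod_insert h1,
    Finset.sum_insert h1] at h
  simp only [Finset.prod_empty, Finset.sum_empty, Finset.prod_singleton, Finset.sum_singleton,
    Matrix.cons_val_zero, Matrix.cons_val_one, Matrix.cons_val, mul_one] at h
  rw [show S0 + b = b + S0 by abel, show S1 + b = b + S1 by abel,
    show S0 + (b + S1) = b + S0 + S1 by abel] at h
  intro h5
  apply h
  rw [← h5]
  simp only [map_mul]
  ring

/-- THE FACE of `S0`, `S1`, `b` for a class with the normal form `(i, k, p, r)`. -/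
theorem face3 (hFcm : FcmS) (hMco : McoS) {q f E : ℤ[X]} {a pp : ℝ} {j : ℕ}
    {eta : L → (RO ℤ)ˣ} {g : ℕ} {C : Set L} {S0 S1 : L} {e0 e1 : (RO ℤ)ˣ}
    (K : K4 phi D q f E a pp j eta g C S0 S1 e0 e1) {b : L} (hbin : Bin phi b) (hb0 : b ≠ 0)
    (hout : Out phi S0 S1 b) {i k : ℕ} {p r : RO ℤ} (hN : Nf D S0 S1 (-e0) (-e1) b i k p r)
    (e : (RO ℤ)ˣ) (z : Circle) {x y t : ℂ} (hx : ‖x‖ < 1) (hy : ‖y‖ < 1) (ht : ‖t‖ < 1) :
    -((z : ℂ) * aeval (z : ℂ) E) + aeval (z : ℂ) f * ((1 - x) * (1 - y)) +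
      t * (evR z ((e : RO ℤ) * p) * x ^ i * y ^ k +
        evR z ((e : RO ℤ) * r) * ((1 - x) * (1 - y))) ≠ 0 := by
  have hD : DD phi D := K.kc.ko.min.fp.dd
  have h2 : 2 ≤ Module.finrank ℤ L := by
    have := K.kc.ko.rk
    have := K.kc.ko.j2
    omega
  obtain ⟨d01, c1, c2, -⟩ := hMco ℤ P L phi D S0 S1 (-e0) (-e1) hD.inj hD.bin K.mt
  have c0 : ((-e0 : (RO ℤ)ˣ) : RO ℤ) * D.coeff S0 = toLaurent (-f) := by
    rw [Units.val_neg, neg_mul, K.r0.DS, map_neg]
  rw [c0] at c1 c2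
  have h := face8 hFcm hD h2 (hD.bin S0 K.mt.r0.1) (hD.bin S1 K.mt.r1.1) hbin K.mt.r0.2.1
    K.mt.r1.2.1 hb0 d01 hout z x y t (-e0) (-e1) e hx hy ht
  rw [c0, c1, c2, K.r0.D0, hN.c00, hN.c10, hN.c01, hN.c11] at h
  have hq : (aeval (z : ℂ) q : ℂ) = aeval (z : ℂ) f - z * aeval (z : ℂ) E := by
    have h3 := congrArg (fun s : ℤ[X] => (aeval (z : ℂ) s : ℂ)) K.eq
    simp only [map_sub, map_mul, aeval_X] at h3
    linear_combination -h3
  intro h5
  apply h
  rw [← h5]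
  simp only [map_neg, map_mul, map_add, map_sub, evR_pl, hq]
  rcases Nat.le_one_iff_eq_zero_or_eq_one.mp hN.i1 with hi | hi <;>
    rcases Nat.le_one_iff_eq_zero_or_eq_one.mp hN.j1 with hk | hk <;>
    subst hi <;> subst hk <;> simp <;> ring

/-- If `A + t B ≠ 0` for all `t` in the disc then `‖B‖ ≤ ‖A‖`. -/
theorem le_of_ne {A B : ℂ} (h : ∀ t : ℂ, ‖t‖ < 1 → A + t * B ≠ 0) : ‖B‖ ≤ ‖A‖ := by
  by_contra hcon
  push Not at hcon
  have hB : B ≠ 0 := by
    rintro rfl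
    rw [norm_zero] at hcon
    exact absurd hcon (not_lt.mpr (norm_nonneg A))
  apply h (-A / B)
  · rw [norm_div, norm_neg, div_lt_one (norm_pos_iff.mpr hB)]
    exact hcon
  · field_simp
    ring

end

end Pool.Agent.B5.O4
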