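import Pool.Agent.Lib.MP_b5021c_nt.O4.H02.Af

/-!
# MP_b5021c_nt, all `θ`, (O1-iv): row O4_E2, the shape of `E` for `j = 2`
-/

namespace Pool.Agent.B5.O4

open scoped LaurentPolynomial
open Polynomial
open Pool.Agent.B5.KE
open Pool.Agent.B5.H40 (uT)

theorem classV_nat' {N : ℝ} {y : RO ℤ} (h : ClassV N y) : ∃ k : ℕ, N = k ∧ 1 ≤ k := by
  obtain ⟨hN1, m, g, hg, hg0, -⟩ := h
  refine ⟨(g.coeff 0).natAbs, ?_, ?_⟩
  · rw [← hg0]
    change ‖((g.coeff 0 : ℤ) : ℂ)‖ = _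
    rw [Complex.norm_intCast, Nat.cast_natAbs, Int.cast_abs]
  · rw [Nat.one_le_iff_ne_zero, Ne, Int.natAbs_eq_zero]
    intro h0
    rw [h0, map_zero, norm_zero] at hg0
    linarith

/-- `2 + t z^k` zero-free in the closed disc: `|t| ≤ 1`. -/
theorem t_le {k : ℕ} {t : ℤ} (hk : 1 ≤ k)
    (hz : ∀ z : ℂ, ‖z‖ ≤ 1 → (aeval z (Polynomial.C 2 + Polynomial.C t * X ^ k : ℤ[X]) : ℂ) ≠ 0) :
    |t| ≤ 1 := by
  by_contra hcon
  push Not at hcon
  have h2 : (2 : ℤ) ≤ |t| := by omega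
  have ht0 : (t : ℂ) ≠ 0 := by
    intro h
    have h3 : t = 0 := by exact_mod_cast h
    rw [h3] at h2
    norm_num at h2
  obtain ⟨z, hzk⟩ := IsAlgClosed.exists_pow_nat_eq (-2 / (t : ℂ)) (by omega : 0 < k)
  have hn : ‖z‖ ^ k ≤ 1 := by
    rw [← norm_pow, hzk, norm_div, norm_neg, Complex.norm_intCast]
    have h4 : (2 : ℝ) ≤ |(t : ℝ)| := by exact_mod_cast h2
    have h5 : ‖(2 : ℂ)‖ = 2 := by simp
    rw [h5, div_le_one (by linarith)]
    exact h4
  have hn1 : ‖z‖ ≤ 1 := by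
    by_contra h
    push Not at h
    have := one_lt_pow₀ h (by omega : k ≠ 0)
    linarith
  apply hz z hn1
  simp only [map_add, map_mul, map_pow, aeval_X, aeval_C, hzk]
  have h6 : (algebraMap ℤ ℂ) t = (t : ℂ) := rfl
  have h7 : (algebraMap ℤ ℂ) 2 = (2 : ℂ) := by norm_num
  rw [h6, h7]
  field_simp
  ring

/-- Row O4_E2. -/
theorem e2 (hBv : Bv2S) (hA : O4aS) (hA2 : O4a2S) (hFD : FDS) (hClp : ClpS) (hE1 : E1S)
    (hMV : MVS) (hMm : MmulS) : O4e2S := by
  classical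
  intro P L _ _ _ _ _ phi D q f E a p j eta g C S0 S1 e0 e1 H hj
  have ih : ∀ K < 4, Bnk K := fun K hK => H.kc.ko.ih K (by omega)
  have key : ∀ (P' L' : Type) [Fintype P'] [DecidableEq P'] [AddCommGroup L'] [Module.Free ℤ L']
      [Module.Finite ℤ L'] (phi' : L' →+ (P' → ℤ)) (G : AO ℤ L') (w : (RO ℤ)ˣ), DD phi' G →
      ClassV 2 (G.coeff 0) → Module.finrank ℤ L' = 3 →
      (w : RO ℤ) * G.coeff 0 = toLaurent E → E.coeff 0 = 2 →
      ∃ (k : ℕ) (t : ℤ), 1 ≤ k ∧ |t| ≤ 1 ∧ E = Polynomial.C 2 + Polynomial.C t * X ^ k := by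
    intro P' L' _ _ _ _ _ phi' G w h1 h2 h3 h4 h5
    obtain ⟨k, t, hk, hE⟩ := hBv P' L' phi' G w E h1 h2 h3 ih h4 h5
    refine ⟨k, t, hk, t_le hk ?_, hE⟩
    rw [← hE]
    exact H.ez
  have hqf : (toLaurent (q - f) : RO ℤ) = -(LaurentPolynomial.T 1 * toLaurent E) := by
    have h1 : q - f = -(X * E) := by rw [← H.eq]; ring
    rw [h1, map_neg, map_mul, toLaurent_X]
  have hTT : (LaurentPolynomial.T (-1) : RO ℤ) * LaurentPolynomial.T 1 = 1 := by
    rw [← LaurentPolynomial.T_add, neg_add_cancel, LaurentPolynomial.T_zero]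
  have hcls : E.coeff 0 = 2 → ClassV 2 (toLaurent (q - f) : RO ℤ) := by
    intro hE0
    refine ⟨by norm_num, 1, -E, ?_, ?_, ?_⟩
    · rw [hqf, map_neg, mul_neg]
    · rw [coeff_neg, map_neg, norm_neg]
      change ‖((E.coeff 0 : ℤ) : ℂ)‖ = _
      rw [hE0, Complex.norm_intCast]
      simp
    · intro z hz
      rw [ev_map, map_neg]
      exact neg_ne_zero.mpr (H.ez z hz.le)
  rcases Nat.lt_or_ge g 2 with hg | hg
  · -- `g = 1`
    have hg1 : g = 1 := le_antisymm (by omega) H.kc.kc.g1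
    subst hg1
    have fp : FP phi D := H.kc.ko.min.fp
    have hD := fp.dd
    have hR : RN D S0 q f e0 a := H.r0
    have hrk : Module.finrank ℤ L = 2 * j + 1 := H.kc.ko.rk
    have hS0 : Ray D S0 := H.kc.kc.ray S0 H.m0
    obtain ⟨i0, h⟩ := exists_port hD hS0
    have cc : CC phi D S0 i0 (-e0) := ⟨hD, by omega, hS0, h, V0_ne_A hR⟩
    obtain ⟨c, n, G, fd⟩ := hFD ℤ P L phi D S0 i0 (-e0) h cc
    obtain ⟨hEj, hcu, hbig, -⟩ := hA P L phi D q f E a p j eta C S0 S1 e0 e1 i0 h c n G H fd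
    have hdr : Module.finrank ℤ L = rk (supp (cl (co phi i0) S0 h (-e0) D)) + 1 + 1 := by
      have h1 := H.kc.kc.dr S0 H.m0 i0 h
      rw [H.t0] at h1
      exact h1
    have hE0 : E.coeff 0 = 2 := by rw [hEj, hj]; rfl
    have hcV := hcls hE0
    have hsup : supp (cl (co phi i0) S0 h (-e0) D) = supp (∏ i, G i) := by
      rw [fd.eq, H56.supp_cst_mul fd.c0]
    have hv0 : (toLaurent (q - f) : RO ℤ) = c * ∏ i, (G i).coeff 0 := by
      rw [← V0_A hR]
      exact fd.v00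
    have hcM : M c = 1 := (hMm ℤ).2.2 c hcu
    -- there is a factor
    have hn : n ≠ 0 := by
      rintro rfl
      rw [Finset.univ_eq_empty, Finset.prod_empty, mul_one] at hv0
      rw [hv0] at hcV
      have := ((hMV ℤ).1 _ _ hcV).2
      rw [hcM] at this
      norm_num at this
    obtain ⟨l⟩ : Nonempty (Fin n) := ⟨⟨0, Nat.pos_of_ne_zero hn⟩⟩
    have hone : ∀ i, i = l := by
      intro i
      by_contra hi
      have hi' : l ∈ Finset.univ.erase i := Finset.mem_erase.mpr ⟨Ne.symm hi, Finset.mem_univ l⟩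
      have h1 : (toLaurent (q - f) : RO ℤ) = (G i).coeff 0 *
          ((G l).coeff 0 * (c * ∏ k ∈ (Finset.univ.erase i).erase l, (G k).coeff 0)) := by
        rw [hv0, ← Finset.mul_prod_erase Finset.univ (fun k => (G k).coeff 0) (Finset.mem_univ i),
          ← Finset.mul_prod_erase (Finset.univ.erase i) (fun k => (G k).coeff 0) hi']
        ring
      rw [h1] at hcV
      obtain ⟨N1, N2, hN1, hN2, hN⟩ := (hE1 ℤ).1 _ _ _ hcV
      obtain ⟨N3, N4, hN3, hN4, hN'⟩ := (hE1 ℤ).1 _ _ _ hN2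
      have b1 := hbig i
      have b2 := hbig l
      rw [((hMV ℤ).1 _ _ hN1).2] at b1
      rw [((hMV ℤ).1 _ _ hN3).2] at b2
      obtain ⟨k1, hk1, -⟩ := classV_nat' hN1
      obtain ⟨k3, hk3, -⟩ := classV_nat' hN3
      obtain ⟨k4, hk4, hk4'⟩ := classV_nat' hN4
      have c1 : 1 < k1 := by
        rw [hk1] at b1
        exact_mod_cast b1
      have c3 : 1 < k3 := by
        rw [hk3] at b2
        exact_mod_cast b2
      have h2 : (2 : ℝ) = (k1 : ℝ) * ((k3 : ℝ) * (k4 : ℝ)) := by rw [hN, hN', hk1, hk3, hk4]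
      have h3 : 2 = k1 * (k3 * k4) := by exact_mod_cast h2
      have h4 : 2 * (2 * 1) ≤ k1 * (k3 * k4) :=
        Nat.mul_le_mul c1 (Nat.mul_le_mul c3 hk4')
      omega
    have herase : Finset.univ.erase l = (∅ : Finset (Fin n)) := by
      rw [Finset.eq_empty_iff_forall_notMem]
      intro i hi
      exact (Finset.mem_erase.mp hi).1 (hone i)
    have hprod : ∏ i, G i = G l := by
      rw [← Finset.mul_prod_erase Finset.univ G (Finset.mem_univ l), herase, Finset.prod_empty,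
        mul_one]
    have hv1 : (toLaurent (q - f) : RO ℤ) = c * (G l).coeff 0 := by
      rw [hv0, ← Finset.mul_prod_erase Finset.univ (fun k => (G k).coeff 0) (Finset.mem_univ l),
        herase, Finset.prod_empty, mul_one]
    have hsl : supp (cl (co phi i0) S0 h (-e0) D) = supp (G l) := by rw [hsup, hprod]
    have hVl : ClassV 2 ((G l).coeff 0) := by
      rw [hv1] at hcV
      obtain ⟨N1, N2, hN1, hN2, hN⟩ := (hE1 ℤ).1 _ _ _ hcV
      have h1 : N1 = 1 := by
        rw [← ((hMV ℤ).1 _ _ hN1).2]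
        exact hcM
      rw [h1, one_mul] at hN
      rw [hN]
      exact hN2
    obtain ⟨-, K, -, hK, hKr, hdd⟩ := (hClp ℤ P L phi D S0 i0 (-e0) h c n G fp fd).2 l
    obtain ⟨cu, hcu'⟩ := hcu
    refine key P K ((phO phi S0 i0).comp (incl K)) (res K (G l)) (uT (-1 : ℤˣ) (-1) * cu) hdd
      ?_ ?_ ?_ hE0
    · rw [res_coeff]
      exact hVl
    · rw [hKr, ← hsl]
      omega
    · rw [res_coeff, Units.val_mul, H40.uT_val, hcu', mul_assoc]
      change _ * (c * (G l).coeff 0) = _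
      rw [← hv1, hqf]
      calc _ = (LaurentPolynomial.T (-1) * LaurentPolynomial.T 1) * toLaurent E := by
            simp only [Units.val_neg, Units.val_one, map_neg, map_one]
            ring
        _ = _ := by rw [hTT, one_mul]
  · -- `g ≥ 2`
    obtain ⟨hEj, P', L', i1, i2, i3, i4, i5, phi', D', hdd, hrk, hD0⟩ :=
      hA2 P L phi D q f E a p j eta g C S0 S1 e0 e1 H hg
    have hE0 : E.coeff 0 = 2 := by rw [hEj, hj]; rfl
    refine key P' L' phi' D' (uT (-1 : ℤˣ) (-1)) hdd ?_ (by omega) ?_ hE0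
    · rw [hD0]
      exact hcls hE0
    · rw [hD0, H40.uT_val, hqf]
      calc _ = (LaurentPolynomial.T (-1) * LaurentPolynomial.T 1) * toLaurent E := by
            simp only [Units.val_neg, Units.val_one, map_neg, map_one]
            ring
        _ = _ := by rw [hTT, one_mul]

end Pool.Agent.B5.O4
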