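import Pool.Agent.Lib.MP_b5021c_nt.O4V.H96.Face
import Pool.Agent.Lib.MP_b5021c_nt.KO.H52.T11
import Pool.Agent.Lib.MP_b5021c_nt.E.H29.C1h
import Pool.Agent.Lib.MP_b5021c_nt.KE.H96.Flip

/-!
# MP_b5021c_nt, all `θ`, (O1-iv): rows O4_T00 and O4_T01
-/

namespace Pool.Agent.B5.O4

open scoped LaurentPolynomial
open Polynomial
open Pool.Agent.B5.KE
open Pool.Agent.B5.H52.T00 (evR_pl)
open Pool.Agent.MP_b5021c_nt (nz)

/-- The point `P = i`. -/
theorem ptI : ∃ x : ℂ, ‖x‖ < 1 ∧ (1 - x) * (1 - x) = Complex.I := by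
  have hs0 : (0 : ℝ) < Real.sqrt 2 := by positivity
  have hs2 : Real.sqrt 2 * Real.sqrt 2 = 2 := Real.mul_self_sqrt (by norm_num)
  obtain ⟨c, hc⟩ : ∃ c : ℝ, c = Real.sqrt 2 / 2 := ⟨_, rfl⟩
  have hc2 : c * c = 1 / 2 := by
    rw [hc]
    nlinarith
  have hc0 : 0 < c := by
    rw [hc]
    positivity
  have hc1 : 1 / 2 < c := by
    by_contra h
    push Not at h
    nlinarith
  refine ⟨1 - (c : ℂ) * (1 + Complex.I), ?_, ?_⟩
  · have h1 : ‖(1 : ℂ) - (c : ℂ) * (1 + Complex.I)‖ ^ 2 < 1 := by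
      rw [← Complex.normSq_eq_norm_sq, Complex.normSq_apply]
      have e1 : ((1 : ℂ) - (c : ℂ) * (1 + Complex.I)).re = 1 - c := by
        simp
      have e2 : ((1 : ℂ) - (c : ℂ) * (1 + Complex.I)).im = -c := by
        simp
      rw [e1, e2]
      nlinarith
    nlinarith [norm_nonneg ((1 : ℂ) - (c : ℂ) * (1 + Complex.I))]
  · have h3 : (c : ℂ) * (c : ℂ) = 1 / 2 := by
      rw [← Complex.ofReal_mul, hc2]
      norm_num
    have h4 : Complex.I * Complex.I = -1 := Complex.I_mul_I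
    linear_combination (1 + Complex.I) * (1 + Complex.I) * h3 + (1 / 2) * h4

section

variable {P L : Type} [Fintype P] [DecidableEq P] [AddCommGroup L] [Module.Free ℤ L]
  [Module.Finite ℤ L] {phi : L →+ (P → ℤ)} {D : AO ℤ L}

theorem T1_ne : (1 + LaurentPolynomial.T 1 : RO ℤ) ≠ 0 := by
  have h1 : (1 + LaurentPolynomial.T 1 : RO ℤ) = toLaurent (1 + X) := by
    rw [map_add, map_one, toLaurent_X]
  rw [h1]
  intro h
  have h2 := toLaurent_injective (h.trans (map_zero toLaurent).symm)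
  have h3 := congrArg (fun p : ℤ[X] => p.coeff 1) h2
  simp [coeff_one] at h3

theorem TT : (LaurentPolynomial.T 1 : RO ℤ) * LaurentPolynomial.T (-1) = 1 := by
  rw [← LaurentPolynomial.T_add, show (1 : ℤ) + -1 = 0 by norm_num, LaurentPolynomial.T_zero]

theorem tV (f E : ℤ[X]) : (toLaurent ((1 + X) ^ 2 * f - X * E) : RO ℤ) =
    (1 + LaurentPolynomial.T 1) ^ 2 * toLaurent f - LaurentPolynomial.T 1 * toLaurent E := by
  rw [map_sub, map_mul, map_mul, map_pow, map_add, map_one, toLaurent_X]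

/-- Row O4_T00. -/
theorem t00 (hFcm : FcmS) (hMco : McoS) : O4t00S := by
  intro P L _ _ _ _ _ phi D q f E a p j eta g C S0 S1 e0 e1 i0 h0 T x b e m pp r KB ty
  have K := KB.k
  have hA := ty.eA
  have hB := ty.eB
  rw [pow_zero, mul_one] at hA
  rw [pow_zero, mul_one] at hB
  set V := (toLaurent ((1 + X) ^ 2 * f - X * E) : RO ℤ) with hV
  have hV' := tV f E
  rw [← hV] at hV'
  -- `M V = -z (1+z) (f + rho)`
  have hrel : fej 1 m * V = -(LaurentPolynomial.T 1 * (1 + LaurentPolynomial.T 1)) *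
      (toLaurent f + (e : RO ℤ) * r) := by
    apply mul_left_cancel₀ T1_ne
    linear_combination (-LaurentPolynomial.T 1) * hA +
      LaurentPolynomial.T 1 * hB - LaurentPolynomial.T 1 * hV' - fej 1 m * V * TT
  have hE : aeval (-1 : ℤ) E ≠ 0 := by
    intro h
    apply K.ez (-1) (by simp)
    have h1 : (aeval (-1 : ℂ) E : ℂ) = ((aeval (-1 : ℤ) E : ℤ) : ℂ) := by
      have h2 := aeval_algebraMap_apply ℂ (-1 : ℤ) E
      simp only [map_neg, map_one] at h2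
      rw [h2]
      rfl
    rw [h1, h, Int.cast_zero]
  refine H52.T00.T00_core ty.m1 hE hrel ?_
  intro z
  obtain ⟨w, hw, hP⟩ := ptI
  have h1 := le_of_ne fun t ht => face3 hFcm hMco K ty.bin ty.b0 ty.out ty.nf e z hw hw ht
  rw [hP] at h1
  have hBz := congrArg (evR z) hB
  simp only [map_add, map_mul, map_pow, map_one, map_zero] at hBz
  have hVz := congrArg (evR z) hV'
  simp only [map_add, map_mul, map_pow, map_one, map_sub, evR_pl] at hVz
  have hT : evR z (LaurentPolynomial.T 1 : RO ℤ) = (z : ℂ) := by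
    rw [evR_T', zpow_one]
  rw [hT] at hBz hVz
  have e1 : evR z ((e : RO ℤ) * pp) * w ^ 0 * w ^ 0 + evR z ((e : RO ℤ) * r) * Complex.I =
      evR z (toLaurent f + (e : RO ℤ) * r) * (Complex.I - (1 + (z : ℂ)) ^ 2) -
        (Complex.I * aeval (z : ℂ) f - z * aeval (z : ℂ) E) := by
    rw [map_add, map_mul, map_mul, evR_pl]
    linear_combination hBz - hVz
  have e2 : -((z : ℂ) * aeval (z : ℂ) E) + aeval (z : ℂ) f * Complex.I =
      Complex.I * aeval (z : ℂ) f - z * aeval (z : ℂ) E := by ring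
  rw [e1, e2] at h1
  exact h1

/-- One zero in the disc. -/
theorem nz_loc {q f : ℤ[X]} {a : ℝ} (h : Nr.Sch.Loc q f a) :
    nz (q.map (algebraMap ℤ ℂ)) = 1 ∧ ∀ z : ℂ, ‖z‖ = 1 → (aeval z q : ℂ) ≠ 0 := by
  obtain ⟨s, hs, hz⟩ := h.s
  have h1 : q.map (algebraMap ℤ ℂ) = (X - C (a : ℂ)) * s.map (algebraMap ℝ ℂ) := by
    have h2 := congrArg (fun p : ℝ[X] => p.map (algebraMap ℝ ℂ)) hs
    simp only [Polynomial.map_mul, Polynomial.map_sub, Polynomial.map_map, map_X, map_C] at h2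
    have h3 : (algebraMap ℝ ℂ).comp (Int.castRingHom ℝ) = algebraMap ℤ ℂ := RingHom.ext_int _ _
    rw [h3] at h2
    exact h2
  have hsz : ∀ z : ℂ, ‖z‖ ≤ 1 → (s.map (algebraMap ℝ ℂ)).eval z ≠ 0 := by
    intro z hz1
    rw [eval_map, ← aeval_def]
    exact hz z hz1
  have hab : ‖(a : ℂ)‖ < 1 := by
    rw [Complex.norm_real, Real.norm_eq_abs, abs_of_pos h.a0]
    exact h.a1
  have hs0 : s.map (algebraMap ℝ ℂ) ≠ 0 := by
    intro h2
    apply hsz 0 (by simp)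
    rw [h2, eval_zero]
  constructor
  · rw [h1, H29.nz_mul' (mul_ne_zero (X_sub_C_ne_zero _) hs0), H29.nz_XsubC hab,
      H29.nz_zero_of_ZF fun z hz1 => hsz z hz1.le]
  · intro z hz1
    have h2 : (aeval z q : ℂ) = (q.map (algebraMap ℤ ℂ)).eval z := by rw [eval_map, aeval_def]
    rw [h2, h1, eval_mul, eval_sub, eval_X, eval_C]
    refine mul_ne_zero ?_ (hsz z hz1.le)
    intro h3
    rw [sub_eq_zero] at h3
    rw [← h3, hz1] at hab
    exact lt_irrefl _ hab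

/-- Row O4_T01. -/
theorem t01 (hFcm : FcmS) (hMco : McoS) (hNd : Nd3S) : O4t01S := by
  intro P L _ _ _ _ _ phi D q f E a p j eta g C S0 S1 e0 e1 i0 h0 T x b e u pp r KB ty _
  have K := KB.k
  have hA := ty.eA
  have hB := ty.eB
  have hf1 : fej 1 1 = 1 := by
    unfold fej
    simp
  rw [pow_zero, mul_one, hf1, one_mul] at hA
  rw [zero_add, pow_one] at hB
  set V := (toLaurent ((1 + X) ^ 2 * f - X * E) : RO ℤ) with hV
  have hV' := tV f E
  rw [← hV] at hV'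
  -- `e r = T f`
  have hr : (e : RO ℤ) * r = LaurentPolynomial.T 1 * toLaurent f := by
    apply mul_left_cancel₀ (pow_ne_zero 2 T1_ne)
    linear_combination hB + LaurentPolynomial.T 1 * hA + LaurentPolynomial.T 1 * hV' + V * TT
  have hq : q = f - X * E := by
    have := K.eq
    rw [← this]
    ring
  obtain ⟨hnz, hcirc⟩ := nz_loc KB.rn.loc
  rw [hq] at hnz hcirc
  refine H52.T11.t01_core hNd ?_ hnz hcirc ?_
  · intro hf
    have := K.o.f0
    rw [hf, coeff_zero] at this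
    exact zero_ne_one this
  intro z hz
  obtain ⟨zc, rfl⟩ : ∃ zc : Circle, (zc : ℂ) = z := ⟨⟨z, mem_sphere_zero_iff_norm.mpr hz⟩, rfl⟩
  have hT : evR zc (LaurentPolynomial.T 1 : RO ℤ) = (zc : ℂ) := by
    rw [evR_T', zpow_one]
  have hT' : evR zc (LaurentPolynomial.T (-1) : RO ℤ) = (zc : ℂ)⁻¹ := by
    rw [evR_T', zpow_neg_one]
  have hVz := congrArg (evR zc) hV'
  simp only [map_add, map_mul, map_pow, map_one, map_sub, evR_pl, hT] at hVz
  have hAz := congrArg (evR zc) hA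
  simp only [map_add, map_mul, map_neg, map_one, evR_pl, hT, hT'] at hAz
  have hrz := congrArg (evR zc) hr
  simp only [map_mul, evR_pl, hT] at hrz
  have hz0 : (zc : ℂ) ≠ 0 := by
    intro h
    rw [h, norm_zero] at hz
    exact zero_ne_one hz
  -- inside
  have hin : ∀ s : ℝ, 0 ≤ s → s < 1 →
      ‖evR zc ((e : RO ℤ) * pp) * (-(zc : ℂ) * s) + evR zc ((e : RO ℤ) * r) *
        (1 - -(zc : ℂ) * s)‖ ≤
      ‖-((zc : ℂ) * aeval (zc : ℂ) E) + aeval (zc : ℂ) f * (1 - -(zc : ℂ) * s)‖ := by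
    intro s hs0 hs1
    have hy : ‖-(zc : ℂ) * (s : ℂ)‖ < 1 := by
      rw [norm_mul, norm_neg, hz, one_mul, Complex.norm_real, Real.norm_eq_abs, abs_of_nonneg hs0]
      exact hs1
    have h1 := le_of_ne fun t ht => face3 hFcm hMco K ty.bin ty.b0 ty.out ty.nf e zc
      (x := 0) (y := -(zc : ℂ) * s) (by simp) hy ht
    simpa using h1
  have hlim : ‖evR zc ((e : RO ℤ) * pp) * (-(zc : ℂ) * (1 : ℝ)) + evR zc ((e : RO ℤ) * r) *
        (1 - -(zc : ℂ) * (1 : ℝ))‖ ≤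
      ‖-((zc : ℂ) * aeval (zc : ℂ) E) + aeval (zc : ℂ) f * (1 - -(zc : ℂ) * (1 : ℝ))‖ := by
    have hev : ∀ᶠ s : ℝ in nhdsWithin 1 (Set.Iio 1),
        ‖evR zc ((e : RO ℤ) * pp) * (-(zc : ℂ) * s) + evR zc ((e : RO ℤ) * r) *
          (1 - -(zc : ℂ) * s)‖ ≤
        ‖-((zc : ℂ) * aeval (zc : ℂ) E) + aeval (zc : ℂ) f * (1 - -(zc : ℂ) * s)‖ := by
      have h1 : ∀ᶠ s : ℝ in nhdsWithin 1 (Set.Iio 1), (0 : ℝ) < s :=
        mem_nhdsWithin_of_mem_nhds (lt_mem_nhds zero_lt_one)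
      filter_upwards [h1, self_mem_nhdsWithin] with s hs hs1
      exact hin s hs.le hs1
    have hc1 : Continuous fun s : ℝ => ‖evR zc ((e : RO ℤ) * pp) * (-(zc : ℂ) * s) +
        evR zc ((e : RO ℤ) * r) * (1 - -(zc : ℂ) * s)‖ := by
      fun_prop
    have hc2 : Continuous fun s : ℝ =>
        ‖-((zc : ℂ) * aeval (zc : ℂ) E) + aeval (zc : ℂ) f * (1 - -(zc : ℂ) * s)‖ := by
      fun_prop
    exact le_of_tendsto_of_tendsto (hc1.tendsto 1 |>.mono_left nhdsWithin_le_nhds)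
      (hc2.tendsto 1 |>.mono_left nhdsWithin_le_nhds) hev
  have hpp : evR zc ((e : RO ℤ) * pp) = (zc : ℂ) * aeval (zc : ℂ) E +
      (1 + (zc : ℂ)⁻¹) * ((1 + (zc : ℂ)) ^ 2 * aeval (zc : ℂ) f - zc * aeval (zc : ℂ) E) := by
    rw [map_mul]
    linear_combination hAz + (1 + (zc : ℂ)⁻¹) * hVz
  have hrr : evR zc ((e : RO ℤ) * r) = (zc : ℂ) * aeval (zc : ℂ) f := by
    rw [map_mul]
    exact hrz
  rw [hpp, hrr] at hlim
  have e1 : ((zc : ℂ) * aeval (zc : ℂ) E + (1 + (zc : ℂ)⁻¹) * ((1 + (zc : ℂ)) ^ 2 *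
      aeval (zc : ℂ) f - zc * aeval (zc : ℂ) E)) * (-(zc : ℂ) * (1 : ℝ)) +
      (zc : ℂ) * aeval (zc : ℂ) f * (1 - -(zc : ℂ) * (1 : ℝ)) =
      -((1 + (zc : ℂ)) ^ 2 * aeval (zc : ℂ) f - zc * aeval (zc : ℂ) E +
        (zc : ℂ) ^ 2 * (1 + zc) * aeval (zc : ℂ) f) := by
    have h1 : (zc : ℂ)⁻¹ * zc = 1 := inv_mul_cancel₀ hz0
    push_cast
    linear_combination (-((1 + (zc : ℂ)) ^ 2 * aeval (zc : ℂ) f - zc * aeval (zc : ℂ) E)) * h1
  have e2 : -((zc : ℂ) * aeval (zc : ℂ) E) + aeval (zc : ℂ) f * (1 - -(zc : ℂ) * (1 : ℝ)) =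
      (aeval (zc : ℂ) (f - X * E + X * f) : ℂ) := by
    simp only [map_add, map_sub, map_mul, aeval_X]
    push_cast
    ring
  rw [e1, e2, norm_neg] at hlim
  exact hlim

end

end Pool.Agent.B5.O4
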